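import Pool.Agent.H33.HH.TC

/-!
THI: the integral of the difference (board hha_modules, MP_347b49_nt).
-/

set_option autoImplicit false

open NumberField Complex Filter Topology MeasureTheory
open scoped ContDiff nonZeroDivisors

namespace Pool.Agent.H88.HH

open Pool.Agent.H33.HH Pool.Agent.H28.RC Pool.Agent.H37.CV

noncomputable section

/-! ### the primitive in the variable `1 / s` -/

/-- `∫_0^(1/s) h` -/
def Vh (h : ℝ → ℝ) (s : ℝ) : ℝ :=
  if s ≤ 0 then ∫ u in (0 : ℝ)..1, h u else ∫ u in (0 : ℝ)..s⁻¹, h u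

theorem prim_hasDeriv {h : ℝ → ℝ} (hc : Continuous h) (x : ℝ) :
    HasDerivAt (fun x => ∫ u in (0 : ℝ)..x, h u) (h x) x :=
  intervalIntegral.integral_hasDerivAt_right (hc.intervalIntegrable _ _)
    hc.stronglyMeasurable.stronglyMeasurableAtFilter hc.continuousAt

theorem prim_smooth {h : ℝ → ℝ} (hs : ContDiff ℝ ∞ h) :
    ContDiff ℝ ∞ (fun x => ∫ u in (0 : ℝ)..x, h u) := by
  rw [contDiff_infty_iff_deriv]
  refine ⟨fun x => (prim_hasDeriv hs.continuous x).differentiableAt, ?_⟩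
  have : deriv (fun x => ∫ u in (0 : ℝ)..x, h u) = h := by
    funext x
    exact (prim_hasDeriv hs.continuous x).deriv
  rw [this]
  exact hs

theorem prim_high {h : ℝ → ℝ} (hc : Continuous h) (h1 : ∀ u, 1 ≤ u → h u = 0) {x : ℝ}
    (hx : 1 ≤ x) : ∫ u in (0 : ℝ)..x, h u = ∫ u in (0 : ℝ)..1, h u := by
  rw [← intervalIntegral.integral_add_adjacent_intervals (b := 1) (hc.intervalIntegrable _ _)
    (hc.intervalIntegrable _ _)]
  have : ∫ u in (1 : ℝ)..x, h u = 0 := by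
    rw [intervalIntegral.integral_of_le hx]
    refine setIntegral_eq_zero_of_forall_eq_zero fun u hu => h1 u hu.1.le
  rw [this, add_zero]

theorem prim_low {h : ℝ → ℝ} {δ : ℝ} (h0 : ∀ u, u ≤ δ → h u = 0) {x : ℝ} (hx0 : 0 ≤ x)
    (hx : x ≤ δ) : ∫ u in (0 : ℝ)..x, h u = 0 := by
  rw [intervalIntegral.integral_of_le hx0]
  exact setIntegral_eq_zero_of_forall_eq_zero fun u hu => h0 u (hu.2.trans hx)

theorem Vh_pos {h : ℝ → ℝ} {s : ℝ} (hs : 0 < s) : Vh h s = ∫ u in (0 : ℝ)..s⁻¹, h u := by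
  unfold Vh
  rw [if_neg (not_le.2 hs)]

theorem Vh_low {h : ℝ → ℝ} (hc : Continuous h) (h1 : ∀ u, 1 ≤ u → h u = 0) {s : ℝ}
    (hs : s ≤ 1) : Vh h s = ∫ u in (0 : ℝ)..1, h u := by
  rcases le_or_gt s 0 with h0 | h0
  · unfold Vh
    rw [if_pos h0]
  · rw [Vh_pos h0]
    exact prim_high hc h1 (one_le_inv_iff₀.2 ⟨h0, hs⟩)

theorem Vh_high {h : ℝ → ℝ} {δ : ℝ} (hδ : 0 < δ) (h0 : ∀ u, u ≤ δ → h u = 0) {s : ℝ}
    (hs : δ⁻¹ ≤ s) : Vh h s = 0 := by
  have hs0 : 0 < s := (inv_pos.2 hδ).trans_le hs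
  rw [Vh_pos hs0]
  refine prim_low h0 (inv_pos.2 hs0).le ?_
  rw [inv_le_comm₀ hs0 hδ]
  exact hs

theorem Vh_smooth {h : ℝ → ℝ} (hsm : ContDiff ℝ ∞ h) (h1 : ∀ u, 1 ≤ u → h u = 0) :
    ContDiff ℝ ∞ (Vh h) := by
  rw [contDiff_iff_contDiffAt]
  intro s
  rcases lt_or_ge s 1 with hs | hs
  · have : Vh h =ᶠ[𝓝 s] fun _ => ∫ u in (0 : ℝ)..1, h u := by
      filter_upwards [gt_mem_nhds hs] with t ht
      exact Vh_low hsm.continuous h1 ht.le
    exact contDiffAt_const.congr_of_eventuallyEq this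
  · have hs0 : 0 < s := by linarith
    have : Vh h =ᶠ[𝓝 s] fun t => ∫ u in (0 : ℝ)..t⁻¹, h u := by
      filter_upwards [lt_mem_nhds hs0] with t ht
      exact Vh_pos ht
    refine ContDiffAt.congr_of_eventuallyEq ?_ this
    exact (prim_smooth hsm).contDiffAt.comp s (contDiffAt_inv ℝ hs0.ne')

theorem Vh_deriv {h : ℝ → ℝ} (hc : Continuous h) {s : ℝ} (hs : 0 < s) :
    HasDerivAt (Vh h) (h s⁻¹ * (-(s ^ 2)⁻¹)) s := by
  have h2 : Vh h =ᶠ[𝓝 s] fun t => ∫ u in (0 : ℝ)..t⁻¹, h u := by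
    filter_upwards [lt_mem_nhds hs] with t ht
    exact Vh_pos ht
  refine HasDerivAt.congr_of_eventuallyEq ?_ h2
  exact (prim_hasDeriv hc s⁻¹).comp s (hasDerivAt_inv hs.ne')

/-- a continuous function which vanishes beyond `b` is integrable on the half-line -/
theorem integrable_half {f : ℝ → ℝ} (hf : Continuous f) {b : ℝ} (hb : 0 ≤ b)
    (h : ∀ u, b ≤ u → f u = 0) : IntegrableOn f (Set.Ioi 0) := by
  rw [← Set.Ioc_union_Ioi_eq_Ioi hb]
  refine IntegrableOn.union ?_ ?_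
  · exact (hf.integrableOn_Icc (a := 0) (b := b)).mono_set Set.Ioc_subset_Icc_self
  · refine (integrableOn_zero (μ := volume)).congr_fun (fun u hu => ?_) measurableSet_Ioi
    exact (h u (le_of_lt hu)).symm

theorem half_eq {f : ℝ → ℝ} (hf : Continuous f) (h : ∀ u, 1 ≤ u → f u = 0) :
    ∫ u in Set.Ioi (0 : ℝ), f u = ∫ u in (0 : ℝ)..1, f u := by
  rw [intervalIntegral.integral_of_le zero_le_one, ← Set.Ioc_union_Ioi_eq_Ioi zero_le_one,
    setIntegral_union (by
      rw [Set.disjoint_left]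
      intro x hx hx'
      exact absurd hx.2 (not_le.2 hx')) measurableSet_Ioi
      ((integrable_half hf zero_le_one h).mono_set fun x hx => hx.1)
      ((integrable_half hf zero_le_one h).mono_set fun x hx => lt_trans zero_lt_one hx)]
  have e : ∫ u in Set.Ioi (1 : ℝ), f u = 0 :=
    setIntegral_eq_zero_of_forall_eq_zero fun u hu => h u (le_of_lt hu)
  rw [e, add_zero]

theorem Vh_integral {W : ℝ → ℝ} (hW : ContDiff ℝ ∞ W) {δ : ℝ} (hδ : 0 < δ)
    (h0 : ∀ u, u ≤ δ → W u = 0) (h1 : ∀ u, 1 ≤ u → W u = 0) :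
    ∫ s in Set.Ioi (0 : ℝ), Vh (w1 W) s = W0 W := by
  have hws : ContDiff ℝ ∞ (w1 W) := contDiff_id.mul hW
  have hw0 : ∀ u, u ≤ δ → w1 W u = 0 := fun u hu => by simp [w1, h0 u hu]
  have hw1 : ∀ u, 1 ≤ u → w1 W u = 0 := fun u hu => by simp [w1, h1 u hu]
  have hV := Vh_smooth hws hw1
  have hU := Vh_smooth hW h1
  have hf : ∀ s, 0 < s → HasDerivAt (fun s => s * Vh (w1 W) s - Vh W s) (Vh (w1 W) s) s := by
    intro s hs
    have a := ((hasDerivAt_id s).mul (Vh_deriv hws.continuous hs)).sub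
      (Vh_deriv hW.continuous hs)
    refine a.congr_deriv ?_
    simp only [id, w1]
    field_simp
    ring
  have := integral_Ioi_of_hasDerivAt_of_tendsto (a := 0) (m := 0)
    (f := fun s => s * Vh (w1 W) s - Vh W s) (f' := Vh (w1 W))
    ((continuous_id.mul hV.continuous).sub hU.continuous).continuousAt.continuousWithinAt
    (fun s hs => hf s hs) (integrable_half hV.continuous (inv_pos.2 hδ).le fun u hu =>
      Vh_high hδ hw0 hu) ?_
  · rw [this]
    have e : Vh W 0 = W0 W := by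
      rw [Vh_low hW.continuous h1 zero_le_one, ← half_eq hW.continuous h1]
      rfl
    simp only [zero_mul, zero_sub, sub_neg_eq_add, zero_add]
    exact e
  · refine tendsto_const_nhds.congr' ?_
    filter_upwards [eventually_ge_atTop δ⁻¹] with s hs
    rw [Vh_high hδ hw0 hs, Vh_high hδ h0 hs]
    ring

/-! ### the sum over the ideals -/

theorem nm_pos {K : Type} [Field K] [NumberField K] (l : NI K) : 0 < nm l.1 := by
  unfold nm
  have : Ideal.absNorm l.1 ≠ 0 := fun h => l.2 (Ideal.absNorm_eq_zero_iff.1 h)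
  exact_mod_cast Nat.pos_of_ne_zero this

theorem fin_nm (K : Type) [Field K] [NumberField K] (B : ℝ) : {l : NI K | nm l.1 ≤ B}.Finite := by
  have h : {I : Ideal (𝓞 K) | Ideal.absNorm I ≤ ⌊B⌋₊}.Finite :=
    Ideal.finite_setOfPred_absNorm_le _
  refine Set.Finite.of_finite_image (f := Subtype.val) (h.subset ?_) Subtype.val_injective.injOn
  rintro _ ⟨l, hl, rfl⟩
  exact Nat.le_floor hl

theorem int_Th (K : Type) [Field K] [NumberField K] {W : ℝ → ℝ} (hW : ContDiff ℝ ∞ W) {δ : ℝ}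
    (hδ : 0 < δ) (h0 : ∀ u, u ≤ δ → W u = 0) {X : ℝ} (hX : 0 < X) :
    ∫ x in (0 : ℝ)..X, Th K W x = ∑' l : NI K, Vh (w1 W) (nm l.1 / X) := by
  have hws : ContDiff ℝ ∞ (w1 W) := contDiff_id.mul hW
  have hw0 : ∀ u, u ≤ δ → w1 W u = 0 := fun u hu => by simp [w1, h0 u hu]
  obtain ⟨F, hF⟩ : ∃ F : Finset (NI K), ∀ l, l ∈ F ↔ nm l.1 ≤ X / δ :=
    ⟨(fin_nm K (X / δ)).toFinset, fun l => by rw [Set.Finite.mem_toFinset]; rfl⟩
  have e1 : ∀ x ∈ Set.uIcc (0 : ℝ) X, Th K W x = ∑ l ∈ F, (nm l.1)⁻¹ * w1 W (x / nm l.1) := by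
    intro x hx
    rw [Set.uIcc_of_le hX.le] at hx
    refine tsum_eq_sum fun l hl => ?_
    rw [hF, not_le] at hl
    have h1 : x / nm l.1 ≤ δ := by
      rw [div_le_iff₀ (nm_pos l)]
      rw [div_lt_iff₀ hδ] at hl
      linarith [hx.2]
    rw [hw0 _ h1, mul_zero]
  rw [intervalIntegral.integral_congr e1, intervalIntegral.integral_finsetSum]
  · rw [tsum_eq_sum (s := F)]
    · refine Finset.sum_congr rfl fun l _ => ?_
      rw [intervalIntegral.integral_const_mul, intervalIntegral.integral_comp_div _ (nm_pos l).ne',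
        Vh_pos (div_pos (nm_pos l) hX), zero_div, smul_eq_mul, ← mul_assoc,
        inv_mul_cancel₀ (nm_pos l).ne', one_mul, inv_div]
    · intro l hl
      rw [hF, not_le] at hl
      refine Vh_high hδ hw0 ?_
      rw [le_div_iff₀ hX, inv_mul_eq_div]
      exact hl.le
  · intro l _
    exact (continuous_const.mul (hws.continuous.comp (continuous_id.div_const _))).intervalIntegrable
      _ _

theorem pf_THI (h1 : T_IDS) (h2 : T_THB) : T_THI := by
  intro K _ _ _ W hW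
  obtain ⟨hcR, -, hA⟩ := h2 K W hW
  obtain ⟨δ, hδ, h0⟩ := hW.low
  have hws : ContDiff ℝ ∞ (w1 W) := contDiff_id.mul hW.smooth
  have hw0 : ∀ u, u ≤ δ → w1 W u = 0 := fun u hu => by simp [w1, h0 u hu]
  have hw1 : ∀ u, 1 ≤ u → w1 W u = 0 := fun u hu => by simp [w1, hW.high u hu]
  have hV := Vh_smooth hws hw1
  -- integrability
  have hint : IntegrableOn (Rr K W) (Set.Ioi 0) := by
    obtain ⟨C, hC, hb⟩ := hA 2
    have h3 : Integrable (fun x : ℝ => C * (1 + ‖x‖) ^ (-(2 : ℝ))) :=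
      (integrable_one_add_norm (by norm_num)).const_mul C
    refine (h3.integrableOn (s := Set.Ioi 0)).mono' hcR.continuous.aestronglyMeasurable.restrict ?_
    filter_upwards [self_mem_ae_restrict measurableSet_Ioi] with x hx
    have hx0 : (0 : ℝ) ≤ x := le_of_lt hx
    rw [Real.norm_eq_abs, Real.norm_of_nonneg hx0, Real.rpow_neg (by linarith),
      show ((2 : ℝ)) = ((2 : ℕ) : ℝ) by norm_num, Real.rpow_natCast, ← div_eq_mul_inv]
    exact (hb x hx0).1
  refine ⟨hint, ?_⟩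
  -- the bound of the derivatives of `V`
  have hM : ∃ M : ℝ, ∀ j ≤ 4, ∀ u ∈ Set.Icc (0 : ℝ) δ⁻¹, |iteratedDeriv j (Vh (w1 W)) u| ≤ M := by
    have h3 : ∀ j : ℕ, ∃ M : ℝ, ∀ u ∈ Set.Icc (0 : ℝ) δ⁻¹, |iteratedDeriv j (Vh (w1 W)) u| ≤ M := by
      intro j
      have hcj : Continuous (iteratedDeriv j (Vh (w1 W))) :=
        hV.continuous_iteratedDeriv j (by exact_mod_cast le_top)
      obtain ⟨M, hM⟩ := isCompact_Icc.exists_bound_of_continuousOn
        (hcj.continuousOn (s := Set.Icc (0 : ℝ) δ⁻¹))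
      exact ⟨M, hM⟩
    choose M hM using h3
    refine ⟨∑ j ∈ Finset.range 5, |M j|, fun j hj u hu => ?_⟩
    refine (hM j u hu).trans ((le_abs_self _).trans ?_)
    exact Finset.single_le_sum (f := fun j => |M j|) (fun _ _ => abs_nonneg _)
      (Finset.mem_range.2 (by omega))
  obtain ⟨M, hM⟩ := hM
  obtain ⟨C, hC, hs⟩ := h1 K 4 δ⁻¹ (by norm_num) (inv_pos.2 hδ)
  have hmain : ∀ X : ℝ, 1 ≤ X →
      |(∫ x in (0 : ℝ)..X, Rr K W x) - -(hc K / wu K * W1 W)| ≤ C * M * X⁻¹ := by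
    intro X hX
    have hX0 : 0 < X := by linarith
    have e1 : ∫ x in (0 : ℝ)..X, Th K W x = (∫ x in (0 : ℝ)..X, Rr K W x) + X * Thi K W := by
      have e2 : ∀ x ∈ Set.uIcc (0 : ℝ) X, Th K W x = Rr K W x + Thi K W := by
        intro x _
        unfold Rr
        ring
      rw [intervalIntegral.integral_congr e2, intervalIntegral.integral_add
        (hcR.continuous.intervalIntegrable _ _) (continuous_const.intervalIntegrable _ _),
        intervalIntegral.integral_const, sub_zero, smul_eq_mul]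
    rw [int_Th K hW.smooth hδ h0 hX0] at e1
    have e3 := hs (Vh (w1 W)) M X hV (fun u hu => Vh_high hδ hw0 hu) hM hX
    rw [Vh_integral hW.smooth hδ h0 hW.high, Vh_low hws.continuous hw1 zero_le_one,
      ← half_eq hws.continuous hw1, e1] at e3
    have e4 : (1 : ℝ) - ((4 : ℕ) : ℝ) / 2 = -1 := by norm_num
    rw [e4, Real.rpow_neg_one] at e3
    have e5 : (∫ x in (0 : ℝ)..X, Rr K W x) + X * Thi K W - rh K * X * W0 W +
        hc K / wu K * (∫ u in Set.Ioi (0 : ℝ), w1 W u) =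
        (∫ x in (0 : ℝ)..X, Rr K W x) - -(hc K / wu K * W1 W) := by
      have : (∫ u in Set.Ioi (0 : ℝ), w1 W u) = W1 W := rfl
      rw [this]
      unfold Thi
      ring
    rw [e5] at e3
    exact e3
  have t1 : Tendsto (fun X : ℝ => ∫ x in (0 : ℝ)..X, Rr K W x) atTop
      (𝓝 (∫ x in Set.Ioi (0 : ℝ), Rr K W x)) :=
    intervalIntegral_tendsto_integral_Ioi 0 hint tendsto_id
  have t2 : Tendsto (fun X : ℝ => ∫ x in (0 : ℝ)..X, Rr K W x) atTop
      (𝓝 (-(hc K / wu K * W1 W))) := by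
    rw [tendsto_iff_norm_sub_tendsto_zero]
    have t3 : Tendsto (fun X : ℝ => C * M * X⁻¹) atTop (𝓝 0) := by
      simpa using tendsto_inv_atTop_zero.const_mul (C * M)
    refine squeeze_zero' (Eventually.of_forall fun _ => norm_nonneg _) ?_ t3
    filter_upwards [eventually_ge_atTop (1 : ℝ)] with X hX
    exact hmain X hX
  exact tendsto_nhds_unique t1 t2

end

end Pool.Agent.H88.HH
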