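import Pool.Agent.H37.HH.Targets4
import Pool.Agent.H28.RC.All
import Pool.Agent.H37.CV.IE

/-!
TWS: smooth sums of a character (board hha_modules, MP_347b49_nt).
-/

set_option autoImplicit false

open NumberField Complex Filter Topology MeasureTheory
open scoped ContDiff nonZeroDivisors

namespace Pool.Agent.H88.HH

open Pool.Agent.H33.HH Pool.Agent.H28.RC Pool.Agent.H37.CV Pool.Agent.H25.HK

variable {K : Type} [Field K] [NumberField K]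

theorem fi_add {M : FI K} {x y : K} (hx : x ∈ M) (hy : y ∈ M) : x + y ∈ M :=
  (M : Submodule (𝓞 K) K).add_mem hx hy

theorem fi_sub {M : FI K} {x y : K} (hx : x ∈ M) (hy : y ∈ M) : x - y ∈ M :=
  (M : Submodule (𝓞 K) K).sub_mem hx hy

/-- the elements of `M` as sums of a representative and an element of `f M` -/
theorem rep_tsum {f : Ideal (𝓞 K)} (hf : f ≠ ⊥) {M : FI K} (hM : M ≠ 0) {X : Finset K}
    (hX : Rep K f M X) (h : K → ℂ) (hs : Summable fun x : {x : K // x ∈ M} => h x.1) :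
    ∑' x : {x : K // x ∈ M}, h x.1 =
      ∑ r ∈ X, ∑' y : {y : K // y ∈ (f : FI K) * M}, h (r + y.1) := by
  have hle : ∀ y : K, y ∈ (f : FI K) * M → y ∈ M := fun y hy =>
    ((c_ID K M hM).2.2.2.2.1 f hf y hy).1
  obtain ⟨e, he⟩ : ∃ e : (↥X × {y : K // y ∈ (f : FI K) * M}) ≃ {x : K // x ∈ M},
      ∀ p, (e p).1 = p.1.1 + p.2.1 := by
    refine ⟨Equiv.ofBijective (fun p => ⟨p.1.1 + p.2.1,
      fi_add (hX.1 _ p.1.2) (hle _ p.2.2)⟩) ⟨?_, ?_⟩, fun p => rfl⟩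
    · rintro ⟨⟨r, hr⟩, ⟨y, hy⟩⟩ ⟨⟨r', hr'⟩, ⟨y', hy'⟩⟩ hp
      have h1 : r + y = r' + y' := congrArg Subtype.val hp
      obtain ⟨r₀, -, hu⟩ := hX.2 (r + y) (fi_add (hX.1 r hr) (hle y hy))
      have h2 : r = r₀ := hu r ⟨hr, by rw [add_sub_cancel_left]; exact hy⟩
      have h3 : r' = r₀ := hu r' ⟨hr', by rw [h1, add_sub_cancel_left]; exact hy'⟩
      have h4 : r = r' := h2.trans h3.symm
      subst h4
      have h5 : y = y' := add_left_cancel h1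
      subst h5
      rfl
    · rintro ⟨x, hx⟩
      obtain ⟨r, ⟨hr, hxr⟩, -⟩ := hX.2 x hx
      exact ⟨⟨⟨r, hr⟩, ⟨x - r, hxr⟩⟩, Subtype.ext (add_sub_cancel r x)⟩
  have h1 : ∑' x : {x : K // x ∈ M}, h x.1 =
      ∑' p : (↥X × {y : K // y ∈ (f : FI K) * M}), h (p.1.1 + p.2.1) := by
    rw [← e.tsum_eq]
    exact tsum_congr fun p => by rw [he]
  have h2 : Summable fun p : (↥X × {y : K // y ∈ (f : FI K) * M}) => h (p.1.1 + p.2.1) := by
    refine (e.summable_iff.2 hs).congr fun p => ?_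
    simp only [Function.comp_apply, he]
  rw [h1, h2.tsum_prod, tsum_fintype]
  exact Finset.sum_coe_sort X fun r => ∑' y : {y : K // y ∈ (f : FI K) * M}, h (r + y.1)

theorem lat_char {k : ℕ} {C : ℝ} (hC : 0 ≤ C)
    (hL : ∀ (J : FractionalIdeal (𝓞 K)⁰ K) (c : ℂ) (R M : ℝ) (F : ℂ → ℝ), J ≠ 0 →
      0 < R → ((FractionalIdeal.absNorm J : ℚ) : ℝ) ≤ R ^ 2 → ContDiff ℝ ∞ F →
      (∀ z, 1 < ‖z‖ → F z = 0) → (∀ z, ‖iteratedFDeriv ℝ k F z‖ ≤ M) →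
      |(∑' x : {x : K // x ∈ J}, F ((em K x.1 - c) / R)) -
        2 * R ^ 2 / (sd K * ((FractionalIdeal.absNorm J : ℚ) : ℝ)) * ∫ z, F z| ≤
        C * M * (R ^ 2 / ((FractionalIdeal.absNorm J : ℚ) : ℝ)) ^ (1 - (k : ℝ) / 2))
    (χ : RCC K) (hf : χ.f ≠ ⊤) (N : FI K) (hN : N ≠ 0) (F : ℂ → ℝ) (M R : ℝ)
    (hR : 0 < R) (hNR : ((FractionalIdeal.absNorm ((χ.f : FI K) * N) : ℚ) : ℝ) ≤ R ^ 2)
    (hF : ContDiff ℝ ∞ F) (hF0 : ∀ z, 1 < ‖z‖ → F z = 0)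
    (hFM : ∀ z, ‖iteratedFDeriv ℝ k F z‖ ≤ M)
    (hs : Summable fun x : {x : K // x ∈ N} => ((F (em K x.1 / R) : ℝ) : ℂ) * cf χ N x.1) :
    ‖∑' x : {x : K // x ∈ N}, ((F (em K x.1 / R) : ℝ) : ℂ) * cf χ N x.1‖ ≤
      nm χ.f * (C * M * (R ^ 2 / ((FractionalIdeal.absNorm ((χ.f : FI K) * N) : ℚ) : ℝ)) ^
        (1 - (k : ℝ) / 2)) := by
  obtain ⟨X, hX, hXc⟩ := c_RX K χ.f N χ.f_ne hN
  obtain ⟨J, hJ⟩ : ∃ J : FI K, J = (χ.f : FI K) * N := ⟨_, rfl⟩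
  have hJ0 : J ≠ 0 := by
    rw [hJ]
    exact mul_ne_zero (FractionalIdeal.coeIdeal_ne_zero.2 χ.f_ne) hN
  rw [rep_tsum χ.f_ne hN hX (fun x => ((F (em K x / R) : ℝ) : ℂ) * cf χ N x) hs, ← hJ]
  rw [← hJ] at hNR
  obtain ⟨m₀, hm₀⟩ : ∃ m₀ : ℝ, m₀ = 2 * R ^ 2 / (sd K * ((FractionalIdeal.absNorm J : ℚ) : ℝ)) *
    ∫ z, F z := ⟨_, rfl⟩
  obtain ⟨E, hE⟩ : ∃ E : ℝ, E = C * M * (R ^ 2 / ((FractionalIdeal.absNorm J : ℚ) : ℝ)) ^
    (1 - (k : ℝ) / 2) := ⟨_, rfl⟩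
  rw [← hE]
  -- the inner sums
  have h1 : ∀ r ∈ X, ∑' y : {y : K // y ∈ J}, ((F (em K (r + y.1) / R) : ℝ) : ℂ) *
      cf χ N (r + y.1) = cf χ N r * ((∑' y : {y : K // y ∈ J},
        F ((em K y.1 - -em K r) / R) : ℝ) : ℂ) := by
    intro r hr
    rw [Complex.ofReal_tsum, ← tsum_mul_left]
    refine tsum_congr fun y => ?_
    have hy : y.1 ∈ (χ.f : FI K) * N := by rw [← hJ]; exact y.2
    rw [c_CP K χ N hN r (hX.1 r hr) y.1 hy, map_add, sub_neg_eq_add, add_comm (em K y.1),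
      mul_comm]
  have h2 : ∀ r ∈ X, |(∑' y : {y : K // y ∈ J}, F ((em K y.1 - -em K r) / R)) - m₀| ≤ E := by
    intro r _
    rw [hm₀, hE]
    exact hL J (-em K r) R M F hJ0 hR hNR hF hF0 hFM
  -- the main terms cancel
  have h3 : ∑ r ∈ X, cf χ N r = 0 := by
    obtain ⟨P, hP, hfP⟩ := Ideal.exists_le_maximal χ.f hf
    have h := c_CV K χ N X hN hX P hP.isPrime hfP 0 (((P : FI K) * du' χ N : FI K) : Submodule (𝓞 K) K).zero_mem
    rw [← h]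
    unfold ft
    refine Finset.sum_congr rfl fun r _ => ?_
    simp
  have h4 : ∑ r ∈ X, ∑' y : {y : K // y ∈ J}, ((F (em K (r + y.1) / R) : ℝ) : ℂ) *
      cf χ N (r + y.1) = ∑ r ∈ X, cf χ N r * (((∑' y : {y : K // y ∈ J},
        F ((em K y.1 - -em K r) / R)) - m₀ : ℝ) : ℂ) := by
    rw [Finset.sum_congr rfl h1]
    have : ∑ r ∈ X, cf χ N r * (m₀ : ℂ) = 0 := by rw [← Finset.sum_mul, h3, zero_mul]
    rw [← sub_zero (∑ r ∈ X, _), ← this, ← Finset.sum_sub_distrib]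
    refine Finset.sum_congr rfl fun r _ => ?_
    push_cast
    ring
  rw [h4]
  refine (norm_sum_le _ _).trans ?_
  have h5 : ∀ r ∈ X, ‖cf χ N r * (((∑' y : {y : K // y ∈ J},
      F ((em K y.1 - -em K r) / R)) - m₀ : ℝ) : ℂ)‖ ≤ E := by
    intro r hr
    rw [norm_mul, Complex.norm_real, Real.norm_eq_abs]
    have a1 := (c_CM K χ N hN).2.1 r (hX.1 r hr)
    have a2 := h2 r hr
    calc _ ≤ 1 * E := mul_le_mul a1 a2 (abs_nonneg _) zero_le_one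
      _ = E := one_mul E
  refine (Finset.sum_le_sum h5).trans (le_of_eq ?_)
  rw [Finset.sum_const, nsmul_eq_mul, hXc]
  rfl


theorem fi_norm_pos {N : FI K} (hN : N ≠ 0) :
    0 < ((FractionalIdeal.absNorm N : ℚ) : ℝ) := by
  have h1 : (0 : ℚ) ≤ FractionalIdeal.absNorm N := FractionalIdeal.absNorm_nonneg N
  have h2 : FractionalIdeal.absNorm N ≠ 0 := fun h =>
    hN ((FractionalIdeal.absNorm_eq_zero_iff (K := K)).1 h)
  have h3 : (0 : ℚ) < FractionalIdeal.absNorm N := lt_of_le_of_ne h1 h2.symm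
  exact_mod_cast h3

theorem one_le_nm' {I : Ideal (𝓞 K)} (hI : I ≠ ⊥) : (1 : ℝ) ≤ nm I := by
  have h : Ideal.absNorm I ≠ 0 := by
    rw [Ne, Ideal.absNorm_eq_zero_iff]
    exact hI
  have h2 : 1 ≤ Ideal.absNorm I := Nat.one_le_iff_ne_zero.2 h
  unfold nm
  exact_mod_cast h2

theorem pf_TWS (hLAT : T_LAT) (hCLS : T_CLS) (hNRM : T_NRM) : Pool.Agent.H33.HH.T_TWS := by
  intro K _ _ _ k hk
  obtain ⟨hTC, hwu, -, -, -, -, -⟩ := hNRM K
  haveI := hTC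
  obtain ⟨C₀, hC₀, hL⟩ := hLAT K k hk
  obtain ⟨J, hJ0, hJn, hJF⟩ := hCLS K
  refine ⟨C₀ * (wu K)⁻¹ * (Fintype.card (ClassGroup (𝓞 K)) : ℝ), by positivity, ?_⟩
  intro g M hg hg0 hgM χ hf X hX
  have hf1 : (1 : ℝ) ≤ nm χ.f := one_le_nm' χ.f_ne
  have hX0 : 0 < X := by linarith
  obtain ⟨F, hFd⟩ : ∃ F : Ideal (𝓞 K) → ℂ, F = fun I => ((g (nm I / X) : ℝ) : ℂ) * χ.ψ I :=
    ⟨_, rfl⟩
  obtain ⟨hS, hE⟩ := hJF F ⟨2 * X, fun I hI => by
    rw [hFd]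
    simp only
    rw [hg0 _ (by rw [lt_div_iff₀ hX0]; linarith), ofReal_zero, zero_mul]⟩
  have hE' : ∑' m : NI K, ((g (nm m.1 / X) : ℝ) : ℂ) * χ.ψ m.1 = ((wu K : ℝ) : ℂ)⁻¹ *
      ∑ i, ∑' x : {x : K // x ∈ J i ∧ x ≠ 0}, F (idl K (J i) x.1) := by
    rw [← hE, hFd]
  have hmain : ∀ i, ‖∑' x : {x : K // x ∈ J i ∧ x ≠ 0}, F (idl K (J i) x.1)‖ ≤
      nm χ.f * (C₀ * M * (X / nm χ.f) ^ (1 - (k : ℝ) / 2)) := by
    intro i
    have ha := fi_norm_pos (hJ0 i)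
    obtain ⟨a, had⟩ : ∃ a : ℝ, a = ((FractionalIdeal.absNorm (J i) : ℚ) : ℝ) := ⟨_, rfl⟩
    rw [← had] at ha
    obtain ⟨R, hRd⟩ : ∃ R : ℝ, R = Real.sqrt (a * X) := ⟨_, rfl⟩
    have hR : 0 < R := by rw [hRd]; exact Real.sqrt_pos.2 (by positivity)
    have hR2 : R ^ 2 = a * X := by rw [hRd]; exact Real.sq_sqrt (by positivity)
    obtain ⟨G, hGd⟩ : ∃ G : {x : K // x ∈ J i} → ℂ, G = fun x =>
        (((fun z : ℂ => g (‖z‖ ^ 2)) (em K x.1 / R) : ℝ) : ℂ) * cf χ (J i) x.1 := ⟨_, rfl⟩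
    obtain ⟨ι, hι⟩ : ∃ ι : {x : K // x ∈ J i ∧ x ≠ 0} → {x : K // x ∈ J i},
        ∀ x, (ι x).1 = x.1 := ⟨fun x => ⟨x.1, x.2.1⟩, fun x => rfl⟩
    have hinj : Function.Injective ι := fun x y h => Subtype.ext (by rw [← hι, ← hι, h])
    have hval : ∀ x : {x : K // x ∈ J i ∧ x ≠ 0}, F (idl K (J i) x.1) = G (ι x) := by
      intro x
      rw [hGd, hFd]
      simp only
      rw [hι, hJn i x.1 x.2.1, ← had]
      congr 2
      · rw [norm_div, div_pow, Complex.norm_real, Real.norm_eq_abs, sq_abs, hR2, div_div]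
      · unfold cf
        rw [if_neg x.2.2, Pool.Agent.H37.CV.sg_one, one_mul]
    have hz : ∀ x : {x : K // x ∈ J i}, x ∉ Set.range ι → G x = 0 := by
      intro x hx
      have : x.1 = 0 := by
        by_contra h
        exact hx ⟨⟨x.1, x.2, h⟩, Subtype.ext (hι _)⟩
      rw [hGd]
      simp only
      rw [this, (c_CM K χ (J i) (hJ0 i)).2.2.2.2.2.1 hf, mul_zero]
    have hsG : Summable G := by
      rw [← hinj.summable_iff hz]
      exact (hS i).congr fun x => hval x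
    have hsum : ∑' x : {x : K // x ∈ J i ∧ x ≠ 0}, F (idl K (J i) x.1) = ∑' x, G x := by
      rw [tsum_congr hval]
      refine hinj.tsum_eq fun x hx => ?_
      by_contra h
      exact hx (hz x h)
    have hab : ((FractionalIdeal.absNorm ((χ.f : FI K) * J i) : ℚ) : ℝ) = nm χ.f * a := by
      rw [map_mul, FractionalIdeal.coeIdeal_absNorm, had]
      unfold nm
      push_cast
      rfl
    have h := lat_char hC₀ hL χ hf (J i) (hJ0 i) (fun z => g (‖z‖ ^ 2)) M R hR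
      (by rw [hab, hR2, mul_comm]; exact mul_le_mul_of_nonneg_left hX ha.le) hg
      (fun z hz => hg0 _ (by nlinarith)) hgM (by rw [hGd] at hsG; exact hsG)
    rw [hsum, hGd]
    refine h.trans (le_of_eq ?_)
    rw [hab, hR2]
    congr 3
    rw [mul_comm (nm χ.f) a, mul_div_mul_left _ _ ha.ne']
  rw [hE', norm_mul, norm_inv, Complex.norm_real, Real.norm_eq_abs, abs_of_pos hwu]
  have h1 : ‖∑ i, ∑' x : {x : K // x ∈ J i ∧ x ≠ 0}, F (idl K (J i) x.1)‖ ≤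
      (Fintype.card (ClassGroup (𝓞 K)) : ℝ) *
        (nm χ.f * (C₀ * M * (X / nm χ.f) ^ (1 - (k : ℝ) / 2))) := by
    refine (norm_sum_le _ _).trans ((Finset.sum_le_sum fun i _ => hmain i).trans (le_of_eq ?_))
    rw [Finset.sum_const, nsmul_eq_mul, Finset.card_univ]
  refine (mul_le_mul_of_nonneg_left h1 (by positivity)).trans (le_of_eq (by ring))

end Pool.Agent.H88.HH
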